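import Pool.Agent.Q238.LI.Ident

set_option autoImplicit false

/-!
The coefficients of `b J(a,b) + a J(b,a) + 1`.
-/

namespace Q238.LI

open Filter Topology MeasureTheory

/-- coefficient of `a^p` -/
noncomputable def psi (p : ℕ) (b : ℝ) : ℝ :=
  b * (jA p b / (p.factorial : ℝ)) +
    ((if p = 0 then 0 else jB (p - 1) b / ((p - 1).factorial : ℝ)) + if p = 0 then 1 else 0)

/-- coefficient of `a^p b^q` -/
noncomputable def uu (p q : ℕ) : ℝ :=
  (if q = 0 then 0 else JJ p (q - 1) / ((q - 1).factorial : ℝ) / (p.factorial : ℝ)) +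
    ((if p = 0 then 0 else JJ q (p - 1) / (q.factorial : ℝ) / ((p - 1).factorial : ℝ)) +
      if p = 0 then (if q = 0 then 1 else 0) else 0)

lemma PS_a {b : ℝ} (hb0 : 0 < b) (hb1 : b < 1) : PS 1 (fun p => psi p b) (hh b) := by
  have h := ((P1 hb1).smul b).add ((P3 hb0).shift.add (PS.const 1 1))
  refine h.congr (fun a ha0 _ => ?_)
  rw [← ident ha0 hb0]
  ring

lemma PS_b (p : ℕ) : PS 1 (uu p) (psi p) := by
  have h1 := ((P2 p).smul (1 / (p.factorial : ℝ))).shift
  by_cases hp : p = 0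
  · subst hp
    have h := h1.add (PS.const 1 1)
    intro b hb0 hb1
    have h' := h b hb0 hb1
    unfold psi
    simp only [if_true, zero_add]
    rw [show b * (jA 0 b / (Nat.factorial 0 : ℝ)) = b * (1 / (Nat.factorial 0 : ℝ) * jA 0 b) by ring]
    refine h'.congr_fun fun q => ?_
    unfold uu
    by_cases hq : q = 0
    · simp [hq]
    · simp [hq]
  · have h := h1.add ((P4 (p - 1)).smul (1 / ((p - 1).factorial : ℝ)))
    intro b hb0 hb1
    have h' := h b hb0 hb1
    unfold psi
    simp only [if_neg hp, add_zero]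
    rw [show b * (jA p b / (p.factorial : ℝ)) + jB (p - 1) b / ((p - 1).factorial : ℝ) =
      b * (1 / (p.factorial : ℝ) * jA p b) + 1 / ((p - 1).factorial : ℝ) * jB (p - 1) b by ring]
    refine h'.congr_fun fun q => ?_
    unfold uu
    by_cases hq : q = 0
    · simp only [hq, if_true, if_neg hp]
      ring
    · simp only [if_neg hq, if_neg hp]
      ring

lemma rec_psi {b : ℝ} (hb0 : 0 < b) (hb1 : b < 1) (p : ℕ) :
    ((p : ℝ) + 1) * psi (p + 1) b =
      ∑ i ∈ Finset.HasAntidiagonal.antidiagonal p, psi i.1 b * gam b i.2 := by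
  have h1 := (PS_a hb0 hb1).deriv (f' := fun a => hh b a * GG b a) fun a ha0 _ => hh_deriv ha0 hb0
  have h2 := (PS_a hb0 hb1).mul (GG_series hb0)
  exact congrFun (PS.unique one_pos h1 h2) p

lemma psi_zero {b : ℝ} (hb0 : 0 < b) : psi 0 b = Real.exp (b * Real.log 2) := by
  have h1 : jA 0 b = Jab 0 b := by
    unfold jA Jab
    simp
  have h2 : Jab 0 b = (2 ^ b - 1) / b := by
    rw [Jab_eq]
    have h3 := intervalIntegral.integral_comp_add_left (a := 0) (b := 1) (fun x : ℝ => x ^ (b - 1)) 1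
    have h4 : ∫ x in (0 : ℝ)..1, ff 0 (b - 1) x = ∫ x in (0 : ℝ)..1, (1 + x) ^ (b - 1) := by
      refine intervalIntegral.integral_congr fun x _ => ?_
      simp [ff]
    rw [h4, h3, integral_rpow (Or.inl (by linarith))]
    rw [sub_add_cancel, add_zero, Real.one_rpow]
    norm_num
  have h5 : Real.exp (b * Real.log 2) = 2 ^ b := by
    rw [mul_comm, ← Real.rpow_def_of_pos (by norm_num)]
  unfold psi
  rw [h1, h2, h5]
  simp only [Nat.factorial_zero, Nat.cast_one, div_one, if_true, zero_add]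
  field_simp
  ring

/-- the algebra generated by `π²`, `log 2` and the odd zeta values -/
noncomputable def AA : Subalgebra ℚ ℝ :=
  Algebra.adjoin ℚ ({Real.pi ^ 2, Real.log 2} ∪
    {x : ℝ | ∃ k : ℕ, Odd k ∧ 3 ≤ k ∧ x = ∑' n : ℕ, 1 / ((n : ℝ) + 1) ^ k})

lemma log_mem : Real.log 2 ∈ AA := Algebra.subset_adjoin (Or.inl (by simp))

lemma pi_mem : Real.pi ^ 2 ∈ AA := Algebra.subset_adjoin (Or.inl (by simp))

lemma rat_mem (c : ℚ) : (c : ℝ) ∈ AA := by
  have := AA.algebraMap_mem c
  simpa using this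

lemma rat_mul_mem (c : ℚ) {x : ℝ} (hx : x ∈ AA) : (c : ℝ) * x ∈ AA := AA.mul_mem (rat_mem c) hx

lemma zv_mem {k : ℕ} (hk : 2 ≤ k) : zv k ∈ AA := by
  rcases Nat.even_or_odd k with h | h
  · obtain ⟨m, rfl⟩ := h.exists_two_nsmul
    rw [smul_eq_mul] at *
    have hm : m ≠ 0 := by omega
    have h1 := hasSum_zeta_nat hm
    rw [← hasSum_nat_add_iff' 1] at h1
    have h2 : zv (2 * m) = ((-1 : ℝ) ^ (m + 1) * (2 : ℝ) ^ (2 * m - 1) * Real.pi ^ (2 * m) *
        bernoulli (2 * m) / (2 * m).factorial) := by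
      unfold zv
      have h3 : (∑ i ∈ Finset.range 1, 1 / (i : ℝ) ^ (2 * m)) = 0 := by
        simp [hm]
      rw [h3, sub_zero] at h1
      rw [← h1.tsum_eq]
      refine tsum_congr fun n => ?_
      push_cast
      rfl
    rw [h2]
    have h4 : ((-1 : ℝ) ^ (m + 1) * (2 : ℝ) ^ (2 * m - 1) * Real.pi ^ (2 * m) *
        bernoulli (2 * m) / (2 * m).factorial) =
        (((-1 : ℚ) ^ (m + 1) * (2 : ℚ) ^ (2 * m - 1) * bernoulli (2 * m) / (2 * m).factorial : ℚ) : ℝ) *
          (Real.pi ^ 2) ^ m := by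
      push_cast
      rw [← pow_mul]
      ring
    rw [h4]
    exact rat_mul_mem _ (AA.pow_mem pi_mem m)
  · exact Algebra.subset_adjoin (Or.inr ⟨k, h, by obtain ⟨m, rfl⟩ := h; omega, rfl⟩)

lemma gam_mem (s : ℕ) : ∃ c : ℕ → ℝ, (∀ t, c t ∈ AA) ∧ PS 1 c (fun b => gam b s) := by
  refine ⟨_, fun t => ?_, gam_series s⟩
  by_cases ht : t = 0
  · by_cases hs : s = 0
    · simp only [ht, hs, if_true]
      exact log_mem
    · simp only [ht, if_true, if_neg hs]
      exact AA.zero_mem
  · simp only [if_neg ht]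
    have h := rat_mul_mem ((-1) ^ (s + t) * ((s + t).choose s : ℚ)) (zv_mem (k := s + t + 1) (by omega))
    push_cast at h
    exact h

lemma psi_mem (p : ℕ) : ∃ c : ℕ → ℝ, (∀ t, c t ∈ AA) ∧ PS 1 c (psi p) := by
  induction p using Nat.strong_induction_on with
  | _ p ih =>
    rcases Nat.eq_zero_or_pos p with rfl | hp
    · refine ⟨fun q => Real.log 2 ^ q / (q.factorial : ℝ), fun q => ?_, fun b hb0 hb1 => ?_⟩
      · have h := rat_mul_mem (1 / (q.factorial : ℚ)) (AA.pow_mem log_mem q)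
        push_cast at h
        rw [one_div_mul_eq_div] at h
        exact h
      · rw [psi_zero hb0, Real.exp_eq_exp_ℝ]
        refine (NormedSpace.expSeries_div_hasSum_exp (b * Real.log 2)).congr_fun fun q => ?_
        rw [mul_pow]
        ring
    · obtain ⟨m, rfl⟩ := Nat.exists_eq_add_of_le' hp
      -- choose the series
      have hc : ∀ i : ℕ, ∃ c : ℕ → ℝ, i ≤ m → (∀ t, c t ∈ AA) ∧ PS 1 c (psi i) := by
        intro i
        by_cases hi : i ≤ m
        · obtain ⟨c, hc⟩ := ih i (by omega)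
          exact ⟨c, fun _ => hc⟩
        · exact ⟨0, fun h => absurd h hi⟩
      choose c hc using hc
      choose d hd1 hd2 using gam_mem
      refine ⟨fun k => (1 / ((m : ℝ) + 1)) * ∑ i ∈ Finset.HasAntidiagonal.antidiagonal m,
        ∑ j ∈ Finset.HasAntidiagonal.antidiagonal k, c i.1 j.1 * d i.2 j.2, fun k => ?_,
        fun b hb0 hb1 => ?_⟩
      · have h := rat_mul_mem (1 / ((m : ℚ) + 1)) (x := ∑ i ∈ Finset.HasAntidiagonal.antidiagonal m,
          ∑ j ∈ Finset.HasAntidiagonal.antidiagonal k, c i.1 j.1 * d i.2 j.2) (by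
            refine AA.sum_mem fun i hi => AA.sum_mem fun j _ => AA.mul_mem ?_ (hd1 _ _)
            exact (hc i.1 (by have := Finset.HasAntidiagonal.mem_antidiagonal.mp hi; omega)).1 _)
        push_cast at h
        exact h
      · have h1 := rec_psi hb0 hb1 m
        have h2 : HasSum (fun k => ∑ i ∈ Finset.HasAntidiagonal.antidiagonal m,
            (∑ j ∈ Finset.HasAntidiagonal.antidiagonal k, c i.1 j.1 * d i.2 j.2) * b ^ k)
            (∑ i ∈ Finset.HasAntidiagonal.antidiagonal m, psi i.1 b * gam b i.2) := by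
          refine hasSum_sum fun i hi => ?_
          exact ((hc i.1 (by have := Finset.HasAntidiagonal.mem_antidiagonal.mp hi; omega)).2.mul
            (hd2 i.2)) b hb0 hb1
        have h3 := h2.mul_left (1 / ((m : ℝ) + 1))
        rw [← h1] at h3
        have h4 : 1 / ((m : ℝ) + 1) * (((m : ℝ) + 1) * psi (m + 1) b) = psi (m + 1) b := by
          have : (m : ℝ) + 1 ≠ 0 := by positivity
          field_simp
        rw [h4] at h3
        refine h3.congr_fun fun k => ?_
        rw [← Finset.sum_mul]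
        ring

lemma uu_mem (p q : ℕ) : uu p q ∈ AA := by
  obtain ⟨c, hc1, hc2⟩ := psi_mem p
  rw [PS.unique one_pos (PS_b p) hc2]
  exact hc1 q

theorem main (n : ℕ) : (∫ x in (0 : ℝ)..1, Real.log (1 - x) ^ (n + 1) * Real.log (1 + x) ^ n / (1 + x)) ∈
    AA := by
  have h1 : (∫ x in (0 : ℝ)..1, Real.log (1 - x) ^ (n + 1) * Real.log (1 + x) ^ n / (1 + x)) =
      JJ (n + 1) n := by
    rw [intervalIntegral.integral_of_le zero_le_one]
    unfold JJ
    refine setIntegral_congr_fun measurableSet_Ioc fun x hx => ?_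
    simp only [l1, l2]
    rw [Real.exp_neg, Real.exp_log (by linarith [hx.1])]
    ring
  rw [h1]
  have h2 := uu_mem (n + 1) (n + 1)
  have h3 : JJ (n + 1) n = (((n.factorial : ℚ) * ((n + 1).factorial : ℚ) / 2 : ℚ) : ℝ) *
      uu (n + 1) (n + 1) := by
    unfold uu
    simp only [Nat.add_eq_zero_iff, one_ne_zero, and_false, if_false, Nat.add_sub_cancel, add_zero]
    push_cast
    field_simp
    ring
  rw [h3]
  exact rat_mul_mem _ h2

end Q238.LI
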