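import Pool.Agent.Q238.LI.Series
import Pool.Agent.W45.WP.Dig

set_option autoImplicit false

/-!
The function `2^(a+b) Γ(1+a) Γ(1+b) / Γ(1+a+b)`: logarithmic derivative and its power series.
-/

namespace Q238.LI

open Filter Topology

/-- terms of the digamma series -/
noncomputable def dgr (n : ℕ) (x : ℝ) : ℝ := 1 / ((n : ℝ) + 1) - 1 / (x + (n + 1))

lemma dgr_cast (n : ℕ) (x : ℝ) : ((dgr n x : ℝ) : ℂ) = Pool.Agent.W45.WP.dg n (x : ℂ) := by
  unfold dgr Pool.Agent.W45.WP.dg
  push_cast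
  rfl

lemma summable_dgr {x : ℝ} (hx : 0 < x) : Summable fun n => dgr n x := by
  have h := Pool.Agent.W45.WP.summable_dg (z := (x : ℂ)) (by simpa using hx)
  have h2 : Summable fun n => ((dgr n x : ℝ) : ℂ) := h.congr fun n => (dgr_cast n x).symm
  exact_mod_cast h2

lemma gamma_deriv {x : ℝ} (hx : 0 < x) : HasDerivAt Real.Gamma
    (Real.Gamma x * (-Real.eulerMascheroniConstant - 1 / x + ∑' n, dgr n x)) x := by
  have hz : 0 < ((x : ℂ)).re := by simpa using hx
  have h1 := Pool.Agent.W45.WP.logDeriv_Gamma_eq hz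
  have hne : Complex.Gamma (x : ℂ) ≠ 0 := Complex.Gamma_ne_zero_of_re_pos hz
  have hd : DifferentiableAt ℂ Complex.Gamma (x : ℂ) := by
    refine Complex.differentiableAt_Gamma _ fun m h => ?_
    have := congrArg Complex.re h
    simp at this
    have hm : (0 : ℝ) ≤ m := Nat.cast_nonneg m
    linarith
  have h2 : deriv Complex.Gamma (x : ℂ) =
      ((Real.Gamma x * (-Real.eulerMascheroniConstant - 1 / x + ∑' n, dgr n x) : ℝ) : ℂ) := by
    rw [logDeriv_apply, div_eq_iff hne] at h1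
    rw [h1, Complex.Gamma_ofReal]
    push_cast
    rw [mul_comm]
    congr 2
    exact tsum_congr fun n => (dgr_cast n x).symm
  have h3 := hd.hasDerivAt
  rw [h2] at h3
  have h4 := h3.real_of_complex
  rw [Complex.ofReal_re] at h4
  refine h4.congr_of_eventuallyEq (Eventually.of_forall fun y => ?_)
  rfl

/-- the function -/
noncomputable def hh (b a : ℝ) : ℝ :=
  (2 : ℝ) ^ (a + b) * Real.Gamma (1 + a) * Real.Gamma (1 + b) / Real.Gamma (1 + a + b)

/-- its logarithmic derivative -/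
noncomputable def GG (b a : ℝ) : ℝ :=
  Real.log 2 + ∑' n : ℕ, (1 / ((n : ℝ) + 1 + a + b) - 1 / ((n : ℝ) + 1 + a))

lemma hh_deriv {a b : ℝ} (ha : 0 < a) (hb : 0 < b) : HasDerivAt (hh b) (hh b a * GG b a) a := by
  have h1 : HasDerivAt (fun a : ℝ => (2 : ℝ) ^ (a + b)) ((2 : ℝ) ^ (a + b) * Real.log 2) a := by
    have := (hasDerivAt_id a).add_const b
    have h := this.const_rpow (a := 2) (by norm_num)
    simpa [mul_comm] using h
  have h2 : HasDerivAt (fun a : ℝ => Real.Gamma (1 + a))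
      (Real.Gamma (1 + a) * (-Real.eulerMascheroniConstant - 1 / (1 + a) + ∑' n, dgr n (1 + a))) a := by
    have h := HasDerivAt.comp a (h₂ := Real.Gamma) (h := fun a : ℝ => 1 + a)
      (gamma_deriv (x := 1 + a) (by linarith)) ((hasDerivAt_id a).const_add 1)
    rw [mul_one] at h
    exact h
  have h3 : HasDerivAt (fun a : ℝ => Real.Gamma (1 + a + b))
      (Real.Gamma (1 + a + b) *
        (-Real.eulerMascheroniConstant - 1 / (1 + a + b) + ∑' n, dgr n (1 + a + b))) a := by
    have h := HasDerivAt.comp a (h₂ := Real.Gamma) (h := fun a : ℝ => 1 + a + b)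
      (gamma_deriv (x := 1 + a + b) (by linarith)) (((hasDerivAt_id a).const_add 1).add_const b)
    rw [mul_one] at h
    exact h
  have hg : Real.Gamma (1 + a + b) ≠ 0 := (Real.Gamma_pos_of_pos (by linarith)).ne'
  have h4 := ((h1.mul h2).mul_const (Real.Gamma (1 + b))).div h3 hg
  have e1 : GG b a = Real.log 2 + ((-Real.eulerMascheroniConstant - 1 / (1 + a) +
      ∑' n, dgr n (1 + a)) - (-Real.eulerMascheroniConstant - 1 / (1 + a + b) +
        ∑' n, dgr n (1 + a + b))) := by
    unfold GG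
    have s1 := summable_dgr (x := 1 + a) (by linarith)
    have s2 := summable_dgr (x := 1 + a + b) (by linarith)
    have s3 := (s1.sub s2)
    have e2 : ∀ n : ℕ, (1 / ((n : ℝ) + 1 + a + b) - 1 / ((n : ℝ) + 1 + a)) =
        if n = 0 then 1 / (1 + a + b) - 1 / (1 + a) else
          dgr (n - 1) (1 + a) - dgr (n - 1) (1 + a + b) := by
      intro n
      rcases Nat.eq_zero_or_pos n with rfl | hn
      · simp
      · obtain ⟨m, rfl⟩ := Nat.exists_eq_add_of_le' hn
        simp only [Nat.succ_eq_add_one, zero_add, Nat.add_eq_zero_iff, one_ne_zero, and_false,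
          if_false, Nat.add_sub_cancel, dgr]
        push_cast
        rw [show (m : ℝ) + 1 + 1 + a + b = 1 + a + b + (m + 1) by ring,
          show (m : ℝ) + 1 + 1 + a = 1 + a + (m + 1) by ring]
        ring
    have e3 : HasSum (fun n : ℕ => (1 / ((n : ℝ) + 1 + a + b) - 1 / ((n : ℝ) + 1 + a)))
        ((1 / (1 + a + b) - 1 / (1 + a)) + (∑' n, dgr n (1 + a) - ∑' n, dgr n (1 + a + b))) := by
      rw [← hasSum_nat_add_iff' 1]
      simp only [Finset.sum_range_one, Nat.cast_zero, zero_add, add_sub_cancel_left]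
      refine (s1.hasSum.sub s2.hasSum).congr_fun fun n => ?_
      have := e2 (n + 1)
      simp only [Nat.add_eq_zero_iff, one_ne_zero, and_false, if_false, Nat.add_sub_cancel] at this
      exact this
    rw [e3.tsum_eq]
    ring
  have e4 : hh b a * GG b a = ((((2 : ℝ) ^ (a + b) * Real.log 2) * Real.Gamma (1 + a) +
      (2 : ℝ) ^ (a + b) * (Real.Gamma (1 + a) * (-Real.eulerMascheroniConstant - 1 / (1 + a) +
        ∑' n, dgr n (1 + a)))) * Real.Gamma (1 + b) * Real.Gamma (1 + a + b) -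
      (2 : ℝ) ^ (a + b) * Real.Gamma (1 + a) * Real.Gamma (1 + b) * (Real.Gamma (1 + a + b) *
        (-Real.eulerMascheroniConstant - 1 / (1 + a + b) + ∑' n, dgr n (1 + a + b)))) /
      Real.Gamma (1 + a + b) ^ 2 := by
    rw [e1]
    unfold hh
    field_simp
    ring
  rw [e4]
  exact h4

/-- exchange of summations -/
lemma exch {u : ℕ × ℕ → ℝ} (hu : Summable u) {g k : ℕ → ℝ}
    (hg : ∀ n, HasSum (fun s => u (n, s)) (g n)) (hk : ∀ s, HasSum (fun n => u (n, s)) (k s)) :
    HasSum k (∑' n, g n) := by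
  have h1 := hu.hasSum.prod_fiberwise hg
  have hu2 : Summable (u ∘ (Equiv.prodComm ℕ ℕ)) := (Equiv.summable_iff _).mpr hu
  have h2 := hu2.hasSum.prod_fiberwise (f := u ∘ (Equiv.prodComm ℕ ℕ)) (g := k) (fun s => hk s)
  have h3 : ∑' x, (u ∘ (Equiv.prodComm ℕ ℕ)) x = ∑' x, u x := (Equiv.prodComm ℕ ℕ).tsum_eq u
  rw [h3] at h2
  rw [h1.tsum_eq]
  exact h2

/-- the difference of powers -/
lemma pow_diff_le {x b : ℝ} (hx : 1 ≤ x) (hb : 0 ≤ b) (s : ℕ) :
    |1 / (x + b) ^ (s + 1) - 1 / x ^ (s + 1)| ≤ (s + 1) * b * (1 / x ^ 2) := by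
  have hx0 : 0 < x := by linarith
  have h1 : 1 / (x + b) ^ (s + 1) ≤ 1 / x ^ (s + 1) :=
    one_div_le_one_div_of_le (by positivity) (pow_le_pow_left₀ hx0.le (by linarith) _)
  rw [abs_sub_comm, abs_of_nonneg (by linarith)]
  have h2 : 1 - (s + 1 : ℝ) * (b / x) ≤ (x / (x + b)) ^ (s + 1) := by
    have h3 : x / (x + b) = 1 + (-(b / (x + b))) := by
      field_simp
      ring
    have h4 : (-2 : ℝ) ≤ -(b / (x + b)) := by
      have : b / (x + b) ≤ 1 := by
        rw [div_le_one (by linarith)]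
        linarith
      linarith
    have h5 := one_add_mul_le_pow h4 (s + 1)
    rw [h3]
    refine le_trans ?_ h5
    have h6 : b / (x + b) ≤ b / x := div_le_div_of_nonneg_left hb hx0 (by linarith)
    push_cast
    nlinarith [h6, (Nat.cast_nonneg s : (0 : ℝ) ≤ s)]
  have h7 : 1 / x ^ (s + 1) - 1 / (x + b) ^ (s + 1) =
      (1 / x ^ (s + 1)) * (1 - (x / (x + b)) ^ (s + 1)) := by
    rw [div_pow]
    field_simp
  rw [h7]
  calc (1 / x ^ (s + 1)) * (1 - (x / (x + b)) ^ (s + 1))
      ≤ (1 / x ^ (s + 1)) * ((s + 1 : ℝ) * (b / x)) :=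
        mul_le_mul_of_nonneg_left (by linarith) (by positivity)
    _ ≤ (1 / x ^ 1) * ((s + 1 : ℝ) * (b / x)) := by
        refine mul_le_mul_of_nonneg_right ?_ (by positivity)
        exact one_div_le_one_div_of_le (by positivity) (pow_le_pow_right₀ hx (by omega))
    _ = _ := by
        field_simp

/-- coefficients in `a` of the logarithmic derivative -/
noncomputable def gam (b : ℝ) (s : ℕ) : ℝ :=
  (if s = 0 then Real.log 2 else 0) +
    (-1) ^ s * ∑' n : ℕ, (1 / ((n : ℝ) + 1 + b) ^ (s + 1) - 1 / ((n : ℝ) + 1) ^ (s + 1))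

lemma summable_inv_sq : Summable fun n : ℕ => 1 / ((n : ℝ) + 1) ^ 2 := H370.DG.summable_inv_sq

lemma summable_pow_diff {b : ℝ} (hb : 0 ≤ b) (s : ℕ) :
    Summable fun n : ℕ => (1 / ((n : ℝ) + 1 + b) ^ (s + 1) - 1 / ((n : ℝ) + 1) ^ (s + 1)) := by
  refine Summable.of_norm_bounded (summable_inv_sq.mul_left ((s + 1) * b)) fun n => ?_
  rw [Real.norm_eq_abs]
  exact pow_diff_le (by have : (0 : ℝ) ≤ n := Nat.cast_nonneg n; linarith) hb s

lemma GG_series {b : ℝ} (hb : 0 < b) : PS 1 (gam b) (GG b) := by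
  intro a ha0 ha1
  have hpos : ∀ n : ℕ, (1 : ℝ) ≤ (n : ℝ) + 1 := fun n => by
    have : (0 : ℝ) ≤ n := Nat.cast_nonneg n
    linarith
  set u : ℕ × ℕ → ℝ := fun p => (-1) ^ p.2 * a ^ p.2 *
    (1 / ((p.1 : ℝ) + 1 + b) ^ (p.2 + 1) - 1 / ((p.1 : ℝ) + 1) ^ (p.2 + 1)) with hu
  have hs : Summable u := by
    have h1 : Summable fun s : ℕ => ((s : ℝ) + 1) * b * a ^ s := by
      have h2 : Summable fun k : ℕ => (k : ℝ) ^ 1 * a ^ k := by
        refine summable_pow_mul_geometric_of_norm_lt_one 1 ?_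
        rw [Real.norm_of_nonneg ha0.le]
        exact ha1
      have h3 : Summable fun k : ℕ => a ^ k := summable_geometric_of_lt_one ha0.le ha1
      refine ((h2.add h3).mul_left b).congr fun k => ?_
      ring
    have h4 := summable_inv_sq.mul_of_nonneg h1 (fun n => by positivity) (fun n => by positivity)
    refine Summable.of_norm_bounded h4 fun p => ?_
    simp only [hu]
    rw [norm_mul, norm_mul, norm_pow, norm_pow, norm_neg, norm_one, one_pow, one_mul,
      Real.norm_of_nonneg ha0.le, Real.norm_eq_abs]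
    calc a ^ p.2 * _ ≤ a ^ p.2 * ((p.2 + 1) * b * (1 / ((p.1 : ℝ) + 1) ^ 2)) :=
          mul_le_mul_of_nonneg_left (pow_diff_le (hpos p.1) hb.le p.2) (by positivity)
      _ = _ := by ring
  have hgeo : ∀ y : ℝ, 1 ≤ y → HasSum (fun s : ℕ => (-1) ^ s * a ^ s * (1 / y ^ (s + 1)))
      (1 / (y + a)) := by
    intro y hy
    have hy0 : 0 < y := by linarith
    have h1 : ‖-(a / y)‖ < 1 := by
      rw [norm_neg, Real.norm_of_nonneg (by positivity), div_lt_one hy0]
      linarith
    have h2 := (hasSum_geometric_of_norm_lt_one h1).mul_left (1 / y)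
    have e : 1 / y * (1 - -(a / y))⁻¹ = 1 / (y + a) := by
      rw [show 1 - -(a / y) = (y + a) / y by field_simp; ring, inv_div]
      have : y + a ≠ 0 := by positivity
      field_simp
    rw [e] at h2
    refine h2.congr_fun fun s => ?_
    rw [neg_pow (a / y), div_pow, pow_succ]
    field_simp
  have hg : ∀ n, HasSum (fun s => u (n, s))
      (1 / ((n : ℝ) + 1 + a + b) - 1 / ((n : ℝ) + 1 + a)) := by
    intro n
    have h1 := hgeo ((n : ℝ) + 1 + b) (by linarith [hpos n])
    have h2 := hgeo ((n : ℝ) + 1) (hpos n)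
    have h3 := h1.sub h2
    rw [show (n : ℝ) + 1 + b + a = (n : ℝ) + 1 + a + b by ring] at h3
    refine h3.congr_fun fun s => ?_
    simp only [hu]
    ring
  have hk : ∀ s, HasSum (fun n => u (n, s)) ((-1) ^ s * a ^ s *
      ∑' n : ℕ, (1 / ((n : ℝ) + 1 + b) ^ (s + 1) - 1 / ((n : ℝ) + 1) ^ (s + 1))) := by
    intro s
    exact (summable_pow_diff hb.le s).hasSum.mul_left ((-1) ^ s * a ^ s)
  have h1 := exch hs hg hk
  have h2 : HasSum (fun s : ℕ => (if s = 0 then Real.log 2 else 0) * a ^ s) (Real.log 2) := by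
    have := hasSum_ite_eq 0 (Real.log 2)
    refine this.congr_fun fun s => ?_
    by_cases h : s = 0 <;> simp [h]
  refine (h2.add h1).congr_fun fun s => ?_
  unfold gam
  ring

/-- Riemann zeta values -/
noncomputable def zv (k : ℕ) : ℝ := ∑' n : ℕ, 1 / ((n : ℝ) + 1) ^ k

lemma gam_series (s : ℕ) : PS 1 (fun t => if t = 0 then (if s = 0 then Real.log 2 else 0) else
    (-1) ^ (s + t) * ((s + t).choose s : ℝ) * zv (s + t + 1)) (fun b => gam b s) := by
  intro b hb0 hb1
  have hpos : ∀ n : ℕ, (1 : ℝ) ≤ (n : ℝ) + 1 := fun n => by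
    have : (0 : ℝ) ≤ n := Nat.cast_nonneg n
    linarith
  set u : ℕ × ℕ → ℝ := fun p => (-1) ^ (p.2 + 1) * ((p.2 + 1 + s).choose s : ℝ) * b ^ (p.2 + 1) *
    (1 / ((p.1 : ℝ) + 1) ^ (s + 1 + (p.2 + 1))) with hu
  have hsb : Summable fun t : ℕ => ((t + 1 + s).choose s : ℝ) * b ^ (t + 1) := by
    have h1 := (hasSum_choose_mul_geometric_of_norm_lt_one s (r := b)
      (by rw [Real.norm_of_nonneg hb0.le]; exact hb1)).summable
    exact (summable_nat_add_iff 1).mpr h1
  have hs : Summable u := by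
    have h4 := summable_inv_sq.mul_of_nonneg hsb (fun n => by positivity) (fun n => by positivity)
    refine Summable.of_norm_bounded h4 fun p => ?_
    simp only [hu]
    rw [norm_mul, norm_mul, norm_mul, norm_pow, norm_neg, norm_one, one_pow, one_mul,
      Real.norm_of_nonneg (Nat.cast_nonneg _), Real.norm_of_nonneg (by positivity),
      Real.norm_of_nonneg (by positivity)]
    rw [mul_comm]
    refine mul_le_mul_of_nonneg_right ?_ (by positivity)
    exact one_div_le_one_div_of_le (by positivity) (pow_le_pow_right₀ (hpos _) (by omega))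
  have hg : ∀ n, HasSum (fun t => u (n, t))
      (1 / ((n : ℝ) + 1 + b) ^ (s + 1) - 1 / ((n : ℝ) + 1) ^ (s + 1)) := by
    intro n
    have hy0 : (0 : ℝ) < (n : ℝ) + 1 := by linarith [hpos n]
    have h1 : ‖-(b / ((n : ℝ) + 1))‖ < 1 := by
      rw [norm_neg, Real.norm_of_nonneg (by positivity), div_lt_one hy0]
      linarith [hpos n]
    have h2 := (hasSum_choose_mul_geometric_of_norm_lt_one s h1).mul_left (1 / ((n : ℝ) + 1) ^ (s + 1))
    rw [← hasSum_nat_add_iff' 1] at h2
    have e : 1 / ((n : ℝ) + 1) ^ (s + 1) * (1 / (1 - -(b / ((n : ℝ) + 1))) ^ (s + 1)) -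
        ∑ i ∈ Finset.range 1, 1 / ((n : ℝ) + 1) ^ (s + 1) *
          (((i + s).choose s : ℝ) * (-(b / ((n : ℝ) + 1))) ^ i) =
        1 / ((n : ℝ) + 1 + b) ^ (s + 1) - 1 / ((n : ℝ) + 1) ^ (s + 1) := by
      simp only [Finset.sum_range_one, zero_add, Nat.choose_self, Nat.cast_one, pow_zero, mul_one]
      congr 1
      rw [← one_div_pow, ← one_div_pow, ← one_div_pow, ← mul_pow]
      congr 1
      have h9 : (n : ℝ) + 1 + b ≠ 0 := by positivity
      rw [show 1 - -(b / ((n : ℝ) + 1)) = ((n : ℝ) + 1 + b) / ((n : ℝ) + 1) by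
        rw [eq_div_iff hy0.ne']
        field_simp
        ring]
      field_simp
    rw [e] at h2
    refine h2.congr_fun fun t => ?_
    simp only [hu]
    rw [neg_pow (b / ((n : ℝ) + 1)), div_pow, pow_add _ (s + 1) (t + 1)]
    field_simp
  have hk : ∀ t, HasSum (fun n => u (n, t)) ((-1) ^ (t + 1) * ((t + 1 + s).choose s : ℝ) *
      b ^ (t + 1) * zv (s + 1 + (t + 1))) := by
    intro t
    have h1 : Summable fun n : ℕ => 1 / ((n : ℝ) + 1) ^ (s + 1 + (t + 1)) := by
      refine Summable.of_nonneg_of_le (fun n => by positivity) (fun n => ?_) summable_inv_sq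
      exact one_div_le_one_div_of_le (by positivity) (pow_le_pow_right₀ (hpos _) (by omega))
    exact h1.hasSum.mul_left _
  have h1 := (exch hs hg hk).mul_left ((-1) ^ s)
  have h3 : HasSum (fun t : ℕ => if t = 0 then (if s = 0 then Real.log 2 else 0) else
      (-1) ^ (s + t) * ((s + t).choose s : ℝ) * zv (s + t + 1) * b ^ t) (gam b s) := by
    rw [← hasSum_nat_add_iff' 1]
    simp only [Finset.sum_range_one, if_true, Nat.add_eq_zero_iff, one_ne_zero, and_false,
      if_false]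
    unfold gam
    rw [add_sub_cancel_left]
    refine h1.congr_fun fun t => ?_
    rw [show t + 1 + s = s + (t + 1) by ring, show s + 1 + (t + 1) = s + (t + 1) + 1 by ring]
    ring
  refine h3.congr_fun fun t => ?_
  by_cases ht : t = 0
  · simp [ht]
  · simp [ht]

end Q238.LI
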