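import Pool.Agent.Q238.LI.Int
import Pool.Agent.Q238.LI.Gam
import Mathlib.Probability.Distributions.Beta

set_option autoImplicit false

/-!
The identity `b J(a,b) + a J(b,a) + 1 = 2^(a+b) Γ(1+a) Γ(1+b) / Γ(1+a+b)`.
-/

namespace Q238.LI

open Filter Topology MeasureTheory

/-- the integrand on `(-1, 1)` -/
noncomputable def ff (a b x : ℝ) : ℝ := (1 - x) ^ a * (1 + x) ^ b

lemma Jab_eq (a b : ℝ) : Jab a b = ∫ x in (0 : ℝ)..1, ff a (b - 1) x := by
  unfold Jab
  rw [intervalIntegral.integral_of_le zero_le_one, integral_Ioc_eq_integral_Ioo,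
    integral_Ioc_eq_integral_Ioo]
  refine setIntegral_congr_fun measurableSet_Ioo fun x hx => ?_
  simp only [ff, l1, l2]
  rw [Real.rpow_def_of_pos (by linarith [hx.2]), Real.rpow_def_of_pos (by linarith [hx.1]),
    mul_comm a, mul_comm (b - 1)]

lemma ff_int_left {a b : ℝ} (hb : -1 < b) : IntervalIntegrable (ff a b) volume (-1) 0 := by
  have h1 : IntervalIntegrable (fun x : ℝ => x ^ b) volume 0 1 :=
    intervalIntegral.intervalIntegrable_rpow' hb
  have h2 := h1.comp_add_right 1
  simp only [zero_sub, sub_self] at h2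
  have h3 : IntervalIntegrable (fun x : ℝ => (1 + x) ^ b) volume (-1) 0 := by
    refine h2.congr (fun x _ => ?_)
    rw [add_comm]
  have h4 := h3.continuousOn_mul (g := fun x : ℝ => (1 - x) ^ a) ?_
  · exact h4
  · rw [Set.uIcc_of_le (by norm_num)]
    intro x hx
    refine ContinuousAt.continuousWithinAt ?_
    refine ContinuousAt.rpow_const (by fun_prop) (Or.inl ?_)
    have := hx.2
    linarith

lemma ff_int_right {a b : ℝ} (ha : -1 < a) : IntervalIntegrable (ff a b) volume 0 1 := by
  have h1 := (ff_int_left (a := b) (b := a) ha).comp_sub_left 0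
  simp only [sub_neg_eq_add, zero_add, sub_zero] at h1
  refine h1.symm.congr (fun x _ => ?_)
  simp only [ff, zero_sub, sub_neg_eq_add]
  rw [mul_comm]
  rfl

lemma real_beta {a b : ℝ} (ha : 0 < a) (hb : 0 < b) :
    ∫ t in (0 : ℝ)..1, t ^ (a - 1) * (1 - t) ^ (b - 1) =
      Real.Gamma a * Real.Gamma b / Real.Gamma (a + b) := by
  have h := ProbabilityTheory.beta_eq_betaIntegralReal a b ha hb
  unfold ProbabilityTheory.beta at h
  rw [h]
  unfold Complex.betaIntegral
  have h1 : (∫ x in (0 : ℝ)..1, (x : ℂ) ^ ((a : ℂ) - 1) * (1 - (x : ℂ)) ^ ((b : ℂ) - 1)) =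
      ((∫ x in (0 : ℝ)..1, x ^ (a - 1) * (1 - x) ^ (b - 1) : ℝ) : ℂ) := by
    rw [← intervalIntegral.integral_ofReal]
    refine intervalIntegral.integral_congr fun x hx => ?_
    rw [Set.uIcc_of_le zero_le_one] at hx
    push_cast
    rw [Complex.ofReal_cpow hx.1, Complex.ofReal_cpow (by linarith [hx.2])]
    push_cast
    rfl
  rw [h1, Complex.ofReal_re]

lemma whole {a b : ℝ} (ha : 0 < a) (hb : 0 < b) :
    ∫ x in (-1 : ℝ)..1, ff a (b - 1) x =
      (2 : ℝ) ^ (a + b) * (Real.Gamma b * Real.Gamma (a + 1) / Real.Gamma (b + (a + 1))) := by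
  have h := intervalIntegral.integral_comp_mul_sub (a := 0) (b := 1) (ff a (b - 1)) (c := 2)
    (by norm_num) 1
  simp only [mul_zero, zero_sub, mul_one] at h
  rw [show (2 : ℝ) - 1 = 1 by norm_num] at h
  have h2 : ∫ x in (-1 : ℝ)..1, ff a (b - 1) x = 2 * ∫ x in (0 : ℝ)..1, ff a (b - 1) (2 * x - 1) := by
    rw [h]
    simp
  rw [h2, ← real_beta hb (by linarith : 0 < a + 1), ← intervalIntegral.integral_const_mul,
    ← intervalIntegral.integral_const_mul]
  refine intervalIntegral.integral_congr fun x hx => ?_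
  rw [Set.uIcc_of_le zero_le_one] at hx
  simp only [ff]
  rw [show 1 - (2 * x - 1) = 2 * (1 - x) by ring, show 1 + (2 * x - 1) = 2 * x by ring,
    Real.mul_rpow (by norm_num) (by linarith [hx.2]), Real.mul_rpow (by norm_num) hx.1,
    show a + b = a + (b - 1) + 1 by ring, Real.rpow_add (by norm_num), Real.rpow_add (by norm_num),
    Real.rpow_one, add_sub_cancel_right]
  ring

lemma left_parts {a b : ℝ} (ha : 0 < a) (hb : 0 < b) :
    ∫ x in (-1 : ℝ)..0, (b * ff a (b - 1) x - a * ff (a - 1) b x) = 1 := by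
  have hcont : ContinuousOn (ff a b) (Set.Icc (-1) 0) := by
    unfold ff
    refine ContinuousOn.mul ?_ ?_
    · exact ContinuousOn.rpow_const (by fun_prop) fun x hx => Or.inr ha.le
    · exact ContinuousOn.rpow_const (by fun_prop) fun x hx => Or.inr hb.le
  have hd : ∀ x ∈ Set.Ioo (-1 : ℝ) 0, HasDerivAt (ff a b)
      (b * ff a (b - 1) x - a * ff (a - 1) b x) x := by
    intro x hx
    have h1 : HasDerivAt (fun x : ℝ => (1 - x) ^ a) (-1 * a * (1 - x) ^ (a - 1)) x :=
      ((hasDerivAt_id x).const_sub 1).rpow_const (Or.inl (by simp; linarith [hx.2]))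
    have h2 : HasDerivAt (fun x : ℝ => (1 + x) ^ b) (1 * b * (1 + x) ^ (b - 1)) x :=
      ((hasDerivAt_id x).const_add 1).rpow_const (Or.inl (by simp; linarith [hx.1]))
    refine (h1.mul h2).congr_deriv ?_
    unfold ff
    ring
  have hi : IntervalIntegrable (fun x => b * ff a (b - 1) x - a * ff (a - 1) b x) volume (-1) 0 :=
    ((ff_int_left (by linarith)).const_mul b).sub ((ff_int_left (by linarith)).const_mul a)
  rw [intervalIntegral.integral_eq_sub_of_hasDerivAt_of_le (by norm_num) hcont hd hi]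
  simp [ff, Real.zero_rpow hb.ne']

lemma reflect (a b : ℝ) : ∫ x in (0 : ℝ)..1, ff b (a - 1) x = ∫ x in (-1 : ℝ)..0, ff (a - 1) b x := by
  have h := intervalIntegral.integral_comp_neg (a := 0) (b := 1) (ff (a - 1) b)
  rw [neg_zero] at h
  rw [← h]
  refine intervalIntegral.integral_congr fun x _ => ?_
  simp only [ff, sub_neg_eq_add]
  rw [mul_comm]
  rfl

theorem ident {a b : ℝ} (ha : 0 < a) (hb : 0 < b) :
    b * Jab a b + a * Jab b a + 1 = hh b a := by
  have h1 := left_parts ha hb
  rw [intervalIntegral.integral_sub ((ff_int_left (by linarith)).const_mul b)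
    ((ff_int_left (by linarith)).const_mul a), intervalIntegral.integral_const_mul,
    intervalIntegral.integral_const_mul] at h1
  have h2 := intervalIntegral.integral_add_adjacent_intervals
    (ff_int_left (a := a) (b := b - 1) (by linarith))
    (ff_int_right (a := a) (b := b - 1) (by linarith))
  rw [whole ha hb] at h2
  rw [Jab_eq a b, Jab_eq b a, reflect a b]
  have h3 : hh b a = b * ((2 : ℝ) ^ (a + b) *
      (Real.Gamma b * Real.Gamma (a + 1) / Real.Gamma (b + (a + 1)))) := by
    unfold hh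
    rw [show 1 + b = b + 1 by ring, Real.Gamma_add_one hb.ne', show 1 + a + b = b + (a + 1) by ring,
      show 1 + a = a + 1 by ring]
    ring
  rw [h3, ← h2]
  linear_combination -h1

end Q238.LI
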