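import Pool.Agent.Q238.LI.Series

set_option autoImplicit false

/-!
The integrals as power series in the parameters.
-/

namespace Q238.LI

open Filter Topology MeasureTheory

/-- `∫ w e^{bL}` as a power series in `b` -/
lemma expInt {α : Type} [MeasurableSpace α] {μ : Measure α} {w L : α → ℝ}
    (hw : AEStronglyMeasurable w μ) (hL : AEStronglyMeasurable L μ) {b : ℝ} (hb : 0 ≤ b)
    (hi : Integrable (fun x => |w x| * Real.exp (b * |L x|)) μ) :
    HasSum (fun q : ℕ => (∫ x, w x * L x ^ q ∂μ) / (q.factorial : ℝ) * b ^ q)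
      (∫ x, w x * Real.exp (b * L x) ∂μ) := by
  set F : ℕ → α → ℝ := fun q x => w x * (b * L x) ^ q / (q.factorial : ℝ) with hF
  have hFm : ∀ q, AEStronglyMeasurable (F q) μ := fun q => by
    have h1 : AEStronglyMeasurable (fun x => w x * (b * L x) ^ q) μ :=
      hw.mul ((hL.const_mul b).pow q)
    exact h1.mul_const _
  have hterm : ∀ q x, ‖F q x‖ = |w x| * ((b * |L x|) ^ q / (q.factorial : ℝ)) := by
    intro q x
    simp only [hF]
    rw [norm_div, norm_mul, norm_pow, norm_mul, Real.norm_of_nonneg hb, Real.norm_eq_abs,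
      Real.norm_eq_abs, Real.norm_of_nonneg (by positivity : (0 : ℝ) ≤ (q.factorial : ℝ))]
    ring
  have hpart : ∀ n x, ∑ q ∈ Finset.range n, ‖F q x‖ ≤ |w x| * Real.exp (b * |L x|) := by
    intro n x
    simp only [hterm]
    rw [← Finset.mul_sum]
    exact mul_le_mul_of_nonneg_left (Real.sum_le_exp_of_nonneg (by positivity) n) (abs_nonneg _)
  have hFi : ∀ q, Integrable (F q) μ := fun q => by
    refine hi.mono' (hFm q) (Eventually.of_forall fun x => ?_)
    refine le_trans ?_ (hpart (q + 1) x)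
    rw [Finset.sum_range_succ]
    have : 0 ≤ ∑ q ∈ Finset.range q, ‖F q x‖ := Finset.sum_nonneg fun _ _ => norm_nonneg _
    linarith
  have hsum : Summable fun q => ∫ x, ‖F q x‖ ∂μ := by
    refine summable_of_sum_range_le (c := ∫ x, |w x| * Real.exp (b * |L x|) ∂μ)
      (fun q => integral_nonneg fun x => norm_nonneg _) fun n => ?_
    rw [← integral_finsetSum _ fun q _ => (hFi q).norm]
    exact integral_mono (integrable_finsetSum _ fun q _ => (hFi q).norm) hi (hpart n)
  have h1 := hasSum_integral_of_summable_integral_norm hFi hsum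
  have h2 : ∀ x, ∑' q, F q x = w x * Real.exp (b * L x) := by
    intro x
    have h3 := (NormedSpace.expSeries_div_hasSum_exp (b * L x)).mul_left (w x)
    rw [← Real.exp_eq_exp_ℝ] at h3
    rw [← h3.tsum_eq]
    refine tsum_congr fun q => ?_
    simp only [hF]
    ring
  simp only [h2] at h1
  refine h1.congr_fun fun q => ?_
  simp only [hF]
  rw [div_mul_eq_mul_div, ← integral_mul_const, ← integral_div]
  refine integral_congr_ae (Eventually.of_forall fun x => ?_)
  simp only
  rw [mul_pow]
  ring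


/-- `log (1 - x)` -/
noncomputable def l1 (x : ℝ) : ℝ := Real.log (1 - x)

/-- `log (1 + x)` -/
noncomputable def l2 (x : ℝ) : ℝ := Real.log (1 + x)

/-- Lebesgue measure on `(0, 1]` -/
noncomputable abbrev mu : Measure ℝ := volume.restrict (Set.Ioc 0 1)

lemma l1_meas : Measurable l1 := by unfold l1; fun_prop

lemma l2_meas : Measurable l2 := by unfold l2; fun_prop

lemma l2_nonneg {x : ℝ} (hx : x ∈ Set.Ioc (0 : ℝ) 1) : 0 ≤ l2 x :=
  Real.log_nonneg (by linarith [hx.1])

lemma l2_le {x : ℝ} (hx : x ∈ Set.Ioc (0 : ℝ) 1) : l2 x ≤ 1 := by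
  have h1 : Real.log (1 + x) ≤ (1 + x) - 1 := Real.log_le_sub_one_of_pos (by linarith [hx.1])
  unfold l2
  linarith [hx.2]

lemma l1_nonpos {x : ℝ} (hx : x ∈ Set.Ioc (0 : ℝ) 1) : l1 x ≤ 0 :=
  Real.log_nonpos (by linarith [hx.2]) (by linarith [hx.1])

lemma int_exp_l1 {a : ℝ} (ha : a < 1) : Integrable (fun x => Real.exp (a * |l1 x|)) mu := by
  have h1 : IntervalIntegrable (fun x : ℝ => x ^ (-a)) volume 0 1 :=
    intervalIntegral.intervalIntegrable_rpow' (by linarith)
  have h2 := (h1.comp_sub_left 1).symm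
  simp only [sub_self, sub_zero] at h2
  have h3 : IntegrableOn (fun x : ℝ => (1 - x) ^ (-a)) (Set.Ioc 0 1) := by
    rw [← intervalIntegrable_iff_integrableOn_Ioc_of_le zero_le_one]
    exact h2
  have h4 : IntegrableOn (fun x => Real.exp (a * |l1 x|)) (Set.Ioo 0 1) := by
    refine (h3.mono_set Set.Ioo_subset_Ioc_self).congr_fun (fun x hx => ?_) measurableSet_Ioo
    simp only
    have hx' : (0 : ℝ) < 1 - x := by linarith [hx.2]
    rw [Real.rpow_def_of_pos hx', abs_of_nonpos (l1_nonpos ⟨hx.1, hx.2.le⟩)]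
    unfold l1
    ring_nf
  exact (integrableOn_Ioc_iff_integrableOn_Ioo).mpr h4

/-- a function bounded by a multiple of `exp (a |log (1-x)|)` is integrable -/
lemma int_of_bd {f : ℝ → ℝ} (hf : Measurable f) {a C : ℝ} (ha : a < 1)
    (h : ∀ x ∈ Set.Ioc (0 : ℝ) 1, |f x| ≤ C * Real.exp (a * |l1 x|)) : Integrable f mu := by
  refine ((int_exp_l1 ha).const_mul C).mono' hf.aestronglyMeasurable ?_
  exact (ae_restrict_iff' measurableSet_Ioc).mpr (Eventually.of_forall fun x hx => h x hx)

/-- `∫ (1-x)^a (1+x)^(b-1)` -/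
noncomputable def Jab (a b : ℝ) : ℝ := ∫ x, Real.exp (a * l1 x) * Real.exp ((b - 1) * l2 x) ∂mu

noncomputable def jA (p : ℕ) (b : ℝ) : ℝ := ∫ x, l1 x ^ p * Real.exp ((b - 1) * l2 x) ∂mu

noncomputable def jB (p : ℕ) (b : ℝ) : ℝ :=
  ∫ x, Real.exp (b * l1 x) * (l2 x ^ p * Real.exp (-l2 x)) ∂mu

noncomputable def JJ (p q : ℕ) : ℝ := ∫ x, l1 x ^ p * (l2 x ^ q * Real.exp (-l2 x)) ∂mu

lemma l1_pow_le (x : ℝ) (p : ℕ) : |l1 x| ^ p ≤ 2 ^ p * (p.factorial : ℝ) * Real.exp (1 / 2 * |l1 x|) := by
  have h := Real.pow_div_factorial_le_exp (1 / 2 * |l1 x|) (by positivity) p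
  rw [div_le_iff₀ (by positivity), mul_pow, one_div, inv_pow, inv_mul_le_iff₀ (by positivity)] at h
  calc |l1 x| ^ p ≤ 2 ^ p * (Real.exp (2⁻¹ * |l1 x|) * (p.factorial : ℝ)) := h
    _ = _ := by rw [one_div]; ring

lemma P1 {b : ℝ} (hb1 : b < 1) : PS 1 (fun p => jA p b / (p.factorial : ℝ)) (fun a => Jab a b) := by
  intro a ha0 ha1
  have h := expInt (μ := mu) (w := fun x => Real.exp ((b - 1) * l2 x)) (L := l1)
    (by have := l2_meas; fun_prop) l1_meas.aestronglyMeasurable ha0.le
    (int_of_bd (by have := l2_meas; have := l1_meas; fun_prop) ha1 (C := 1) fun x hx => by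
      rw [abs_mul, abs_abs, Real.abs_exp, Real.abs_exp]
      refine mul_le_mul_of_nonneg_right ?_ (Real.exp_pos _).le
      rw [Real.exp_le_one_iff]
      nlinarith [l2_nonneg hx])
  have e1 : Jab a b = ∫ x, Real.exp ((b - 1) * l2 x) * Real.exp (a * l1 x) ∂mu := by
    unfold Jab
    exact integral_congr_ae (Eventually.of_forall fun x => mul_comm _ _)
  simp only [e1]
  refine h.congr_fun fun q => ?_
  unfold jA
  congr 2
  exact integral_congr_ae (Eventually.of_forall fun x => mul_comm _ _)

lemma P2 (p : ℕ) : PS 1 (fun q => JJ p q / (q.factorial : ℝ)) (fun b => jA p b) := by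
  intro b hb0 hb1
  have h := expInt (μ := mu) (w := fun x => l1 x ^ p * Real.exp (-l2 x)) (L := l2)
    (by have := l2_meas; have := l1_meas; fun_prop) l2_meas.aestronglyMeasurable hb0.le
    (int_of_bd (by have := l2_meas; have := l1_meas; fun_prop) (a := 1 / 2) (by norm_num)
      (C := 2 ^ p * (p.factorial : ℝ) * Real.exp 1) fun x hx => by
      rw [abs_mul, abs_abs, Real.abs_exp, abs_mul, Real.abs_exp, abs_pow]
      have h0 := l2_nonneg hx
      have h1 := l2_le hx
      have h2 : Real.exp (-l2 x) ≤ 1 := by rw [Real.exp_le_one_iff]; linarith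
      have h3 : Real.exp (b * |l2 x|) ≤ Real.exp 1 := by
        rw [Real.exp_le_exp, abs_of_nonneg h0]
        nlinarith
      have h4 := l1_pow_le x p
      calc |l1 x| ^ p * Real.exp (-l2 x) * Real.exp (b * |l2 x|)
          ≤ |l1 x| ^ p * 1 * Real.exp 1 := by
            refine mul_le_mul ?_ h3 (Real.exp_pos _).le (by positivity)
            exact mul_le_mul_of_nonneg_left h2 (by positivity)
        _ ≤ (2 ^ p * (p.factorial : ℝ) * Real.exp (1 / 2 * |l1 x|)) * 1 * Real.exp 1 := by
            refine mul_le_mul_of_nonneg_right ?_ (Real.exp_pos _).le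
            linarith
        _ = _ := by ring)
  have e1 : jA p b = ∫ x, l1 x ^ p * Real.exp (-l2 x) * Real.exp (b * l2 x) ∂mu := by
    unfold jA
    refine integral_congr_ae (Eventually.of_forall fun x => ?_)
    simp only
    rw [mul_assoc, ← Real.exp_add]
    ring_nf
  simp only [e1]
  refine h.congr_fun fun q => ?_
  unfold JJ
  congr 2
  refine integral_congr_ae (Eventually.of_forall fun x => ?_)
  simp only
  ring

lemma P3 {b : ℝ} (hb0 : 0 < b) :
    PS 1 (fun p => jB p b / (p.factorial : ℝ)) (fun a => Jab b a) := by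
  intro a ha0 ha1
  have h := expInt (μ := mu) (w := fun x => Real.exp (b * l1 x) * Real.exp (-l2 x)) (L := l2)
    (by have := l2_meas; have := l1_meas; fun_prop) l2_meas.aestronglyMeasurable ha0.le
    (int_of_bd (by have := l2_meas; have := l1_meas; fun_prop) (a := 0) (by norm_num)
      (C := Real.exp 1) fun x hx => by
      rw [abs_mul, abs_abs, Real.abs_exp, abs_mul, Real.abs_exp, Real.abs_exp, zero_mul,
        Real.exp_zero, mul_one]
      have h0 := l2_nonneg hx
      have h1 := l2_le hx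
      have h5 := l1_nonpos hx
      have h2 : Real.exp (-l2 x) ≤ 1 := by rw [Real.exp_le_one_iff]; linarith
      have h6 : Real.exp (b * l1 x) ≤ 1 := by rw [Real.exp_le_one_iff]; nlinarith
      have h3 : Real.exp (a * |l2 x|) ≤ Real.exp 1 := by
        rw [Real.exp_le_exp, abs_of_nonneg h0]
        nlinarith
      calc Real.exp (b * l1 x) * Real.exp (-l2 x) * Real.exp (a * |l2 x|)
          ≤ 1 * 1 * Real.exp 1 := by
            refine mul_le_mul ?_ h3 (Real.exp_pos _).le (by positivity)
            exact mul_le_mul h6 h2 (Real.exp_pos _).le (by positivity)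
        _ = Real.exp 1 := by ring)
  have e1 : Jab b a = ∫ x, Real.exp (b * l1 x) * Real.exp (-l2 x) * Real.exp (a * l2 x) ∂mu := by
    unfold Jab
    refine integral_congr_ae (Eventually.of_forall fun x => ?_)
    simp only
    rw [mul_assoc, ← Real.exp_add (-l2 x)]
    ring_nf
  simp only [e1]
  refine h.congr_fun fun q => ?_
  unfold jB
  congr 2
  refine integral_congr_ae (Eventually.of_forall fun x => ?_)
  simp only
  ring

lemma P4 (p : ℕ) : PS 1 (fun q => JJ q p / (q.factorial : ℝ)) (fun b => jB p b) := by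
  intro b hb0 hb1
  have h := expInt (μ := mu) (w := fun x => l2 x ^ p * Real.exp (-l2 x)) (L := l1)
    (by have := l2_meas; have := l1_meas; fun_prop) l1_meas.aestronglyMeasurable hb0.le
    (int_of_bd (by have := l2_meas; have := l1_meas; fun_prop) (a := b) hb1
      (C := 1) fun x hx => by
      rw [abs_mul, abs_abs, Real.abs_exp, abs_mul, Real.abs_exp, abs_pow]
      have h0 := l2_nonneg hx
      have h1 := l2_le hx
      have h2 : Real.exp (-l2 x) ≤ 1 := by rw [Real.exp_le_one_iff]; linarith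
      have h3 : |l2 x| ^ p ≤ 1 := pow_le_one₀ (abs_nonneg _) (by rw [abs_of_nonneg h0]; exact h1)
      refine mul_le_mul_of_nonneg_right ?_ (Real.exp_pos _).le
      calc |l2 x| ^ p * Real.exp (-l2 x) ≤ 1 * 1 :=
            mul_le_mul h3 h2 (Real.exp_pos _).le (by positivity)
        _ = 1 := by ring)
  have e1 : jB p b = ∫ x, l2 x ^ p * Real.exp (-l2 x) * Real.exp (b * l1 x) ∂mu := by
    unfold jB
    exact integral_congr_ae (Eventually.of_forall fun x => mul_comm _ _)
  simp only [e1]
  refine h.congr_fun fun q => ?_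
  unfold JJ
  congr 2
  refine integral_congr_ae (Eventually.of_forall fun x => ?_)
  simp only
  ring

end Q238.LI
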