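import Mathlib

set_option autoImplicit false

/-!
Power series on `(0, r)`: uniqueness, products, derivative.
-/

namespace Q238.LI

open Filter Topology

/-- `f` is the sum of the power series `c` on `(0, r)` -/
def PS (r : ℝ) (c : ℕ → ℝ) (f : ℝ → ℝ) : Prop :=
  ∀ b : ℝ, 0 < b → b < r → HasSum (fun k => c k * b ^ k) (f b)

lemma PS.congr {r : ℝ} {c : ℕ → ℝ} {f g : ℝ → ℝ} (h : PS r c f)
    (hfg : ∀ b, 0 < b → b < r → f b = g b) : PS r c g := fun b h0 h1 => hfg b h0 h1 ▸ h b h0 h1

lemma PS.mono {r s : ℝ} {c : ℕ → ℝ} {f : ℝ → ℝ} (h : PS r c f) (hs : s ≤ r) : PS s c f :=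
  fun b h0 h1 => h b h0 (h1.trans_le hs)

lemma PS.add {r : ℝ} {c d : ℕ → ℝ} {f g : ℝ → ℝ} (h : PS r c f) (h' : PS r d g) :
    PS r (fun k => c k + d k) (fun b => f b + g b) := by
  intro b h0 h1
  simpa [add_mul] using (h b h0 h1).add (h' b h0 h1)

lemma PS.sub {r : ℝ} {c d : ℕ → ℝ} {f g : ℝ → ℝ} (h : PS r c f) (h' : PS r d g) :
    PS r (fun k => c k - d k) (fun b => f b - g b) := by
  intro b h0 h1
  simpa [sub_mul] using (h b h0 h1).sub (h' b h0 h1)

lemma PS.smul {r : ℝ} {c : ℕ → ℝ} {f : ℝ → ℝ} (h : PS r c f) (a : ℝ) :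
    PS r (fun k => a * c k) (fun b => a * f b) := by
  intro b h0 h1
  simpa [mul_assoc] using (h b h0 h1).mul_left a

lemma PS.shift {r : ℝ} {c : ℕ → ℝ} {f : ℝ → ℝ} (h : PS r c f) :
    PS r (fun k => if k = 0 then 0 else c (k - 1)) (fun b => b * f b) := by
  intro b h0 h1
  rw [← hasSum_nat_add_iff' 1]
  simp only [Finset.sum_range_one, if_true, zero_mul, sub_zero, Nat.add_eq_zero_iff, one_ne_zero,
    and_false, if_false, Nat.add_sub_cancel]
  have := (h b h0 h1).mul_left b
  refine this.congr_fun ?_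
  intro k
  ring

lemma PS.const (r a : ℝ) : PS r (fun k => if k = 0 then a else 0) (fun _ => a) := by
  intro b _ _
  have := hasSum_ite_eq 0 a
  refine this.congr_fun ?_
  intro k
  by_cases hk : k = 0 <;> simp [hk]

lemma PS.mul {r : ℝ} {c d : ℕ → ℝ} {f g : ℝ → ℝ} (h : PS r c f) (h' : PS r d g) :
    PS r (fun k => ∑ p ∈ Finset.HasAntidiagonal.antidiagonal k, c p.1 * d p.2) (fun b => f b * g b) := by
  intro b h0 h1
  have h2 := h b h0 h1
  have h3 := h' b h0 h1
  have h4 := summable_norm_iff.mpr h2.summable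
  have h5 := summable_norm_iff.mpr h3.summable
  have h6 := (summable_norm_sum_mul_antidiagonal_of_summable_norm h4 h5).of_norm
  have h7 := tsum_mul_tsum_eq_tsum_sum_antidiagonal_of_summable_norm h4 h5
  rw [h2.tsum_eq, h3.tsum_eq] at h7
  change HasSum (fun k => (∑ p ∈ Finset.HasAntidiagonal.antidiagonal k, c p.1 * d p.2) * b ^ k)
    (f b * g b)
  rw [h7]
  refine h6.hasSum.congr_fun ?_
  intro k
  rw [Finset.sum_mul]
  refine Finset.sum_congr rfl fun p hp => ?_
  rw [← Finset.HasAntidiagonal.mem_antidiagonal.mp hp, pow_add]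
  ring

/-- a power series that vanishes on `(0, r)` is zero -/
lemma PS.zero {r : ℝ} (hr : 0 < r) {c : ℕ → ℝ} (h : PS r c fun _ => 0) : ∀ k, c k = 0 := by
  intro k
  induction k using Nat.strong_induction_on with
  | _ k ih =>
    -- the series `∑ c (k + j) b^j` vanishes on `(0, r)`
    have h1 : ∀ b, 0 < b → b < r → HasSum (fun j => c (j + k) * b ^ j) 0 := by
      intro b h0 h1
      have h2 := h b h0 h1
      rw [← hasSum_nat_add_iff' k] at h2
      rw [Finset.sum_eq_zero (fun i hi => by rw [ih i (Finset.mem_range.mp hi), zero_mul]),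
        sub_zero] at h2
      have h3 := h2.mul_left ((b ^ k)⁻¹)
      rw [mul_zero] at h3
      refine h3.congr_fun ?_
      intro j
      have : b ^ k ≠ 0 := (pow_pos h0 k).ne'
      rw [pow_add]
      field_simp
    -- bound
    have hs := summable_norm_iff.mpr (h1 (r / 2) (by positivity) (by linarith)).summable
    obtain ⟨M, hM⟩ : ∃ M, ∀ j, ‖c (j + k) * (r / 2) ^ j‖ ≤ M := by
      obtain ⟨M, hM⟩ := hs.tendsto_atTop_zero.bddAbove_range
      exact ⟨M, fun j => hM ⟨j, rfl⟩⟩
    have hM0 : 0 ≤ M := (norm_nonneg _).trans (hM 0)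
    have h2 : ∀ b, 0 < b → b < r / 4 → |c k| ≤ (4 * M / r) * b := by
      intro b h0 hb
      have h3 := h1 b h0 (by linarith)
      rw [← hasSum_nat_add_iff' 1] at h3
      simp only [Finset.sum_range_one, zero_add, pow_zero, mul_one, zero_sub] at h3
      have h4 : ∀ j, ‖c (j + 1 + k) * b ^ (j + 1)‖ ≤ M * (2 * b / r) * (1 / 2) ^ j := by
        intro j
        have h5 := hM (j + 1)
        have e : b ^ (j + 1) = (r / 2) ^ (j + 1) * (2 * b / r) ^ (j + 1) := by
          rw [← mul_pow]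
          congr 1
          field_simp
        rw [e, ← mul_assoc, norm_mul]
        have h6 : ‖(2 * b / r) ^ (j + 1)‖ ≤ (2 * b / r) * (1 / 2) ^ j := by
          rw [norm_pow, Real.norm_of_nonneg (by positivity), pow_succ']
          refine mul_le_mul_of_nonneg_left ?_ (by positivity)
          refine pow_le_pow_left₀ (by positivity) ?_ j
          rw [div_le_div_iff₀ hr (by norm_num)]
          linarith
        calc _ ≤ M * ((2 * b / r) * (1 / 2) ^ j) := mul_le_mul h5 h6 (norm_nonneg _) hM0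
          _ = _ := by ring
      have h5 := tsum_of_norm_bounded ((hasSum_geometric_two).mul_left (M * (2 * b / r))) h4
      rw [h3.tsum_eq, norm_neg, Real.norm_eq_abs] at h5
      calc |c k| ≤ M * (2 * b / r) * 2 := h5
        _ = _ := by ring
    by_contra hc
    have h3 : 0 < |c k| := abs_pos.mpr hc
    have hC : 0 ≤ 4 * M / r := by positivity
    obtain ⟨b, hb0, hb1, hb2⟩ : ∃ b : ℝ, 0 < b ∧ b < r / 4 ∧ (4 * M / r) * b < |c k| := by
      refine ⟨min (r / 8) (|c k| / (2 * (4 * M / r + 1))), ?_, ?_, ?_⟩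
      · positivity
      · exact lt_of_le_of_lt (min_le_left _ _) (by linarith)
      · calc (4 * M / r) * min (r / 8) (|c k| / (2 * (4 * M / r + 1)))
            ≤ (4 * M / r + 1) * (|c k| / (2 * (4 * M / r + 1))) :=
              mul_le_mul (by linarith) (min_le_right _ _) (by positivity) (by positivity)
          _ = |c k| / 2 := by field_simp
          _ < |c k| := by linarith
    exact absurd (h2 b hb0 hb1) (not_le.mpr hb2)

lemma PS.unique {r : ℝ} (hr : 0 < r) {c d : ℕ → ℝ} {f : ℝ → ℝ} (h : PS r c f) (h' : PS r d f) :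
    c = d := by
  funext k
  have := PS.zero hr ((h.sub h').congr (g := fun _ => 0) fun b _ _ => sub_self _) k
  exact sub_eq_zero.mp this

/-- differentiation of power series -/
lemma PS.deriv {r : ℝ} {c : ℕ → ℝ} {f f' : ℝ → ℝ} (h : PS r c f)
    (hd : ∀ b, 0 < b → b < r → HasDerivAt f (f' b) b) : PS r (fun k => (k + 1) * c (k + 1)) f' := by
  intro b h0 h1
  obtain ⟨s, hs1, hs2⟩ := exists_between h1
  obtain ⟨t, ht1, ht2⟩ := exists_between hs2
  have hs0 : 0 < s := h0.trans hs1
  have ht0 : 0 < t := hs0.trans ht1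
  have hsum := summable_norm_iff.mpr (h t ht0 ht2).summable
  obtain ⟨M, hM⟩ : ∃ M, ∀ j, ‖c j * t ^ j‖ ≤ M := by
    obtain ⟨M, hM⟩ := hsum.tendsto_atTop_zero.bddAbove_range
    exact ⟨M, fun j => hM ⟨j, rfl⟩⟩
  have hM0 : 0 ≤ M := (norm_nonneg _).trans (hM 0)
  set u : ℕ → ℝ := fun k => M / s * (k * (s / t) ^ k) with hu
  have hus : Summable u := by
    have h2 : Summable fun k : ℕ => (k : ℝ) ^ 1 * (s / t) ^ k := by
      refine summable_pow_mul_geometric_of_norm_lt_one 1 ?_
      rw [Real.norm_of_nonneg (by positivity), div_lt_one ht0]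
      exact ht1
    simpa [hu] using (h2.mul_left (M / s))
  have hbd : ∀ (k : ℕ) (y : ℝ), y ∈ Set.Ioo 0 s → ‖c k * (k * y ^ (k - 1))‖ ≤ u k := by
    intro k y hy
    rcases Nat.eq_zero_or_pos k with rfl | hk
    · simp [hu]
    · obtain ⟨m, rfl⟩ := Nat.exists_eq_add_of_le' hk
      simp only [Nat.add_sub_cancel, hu]
      rw [norm_mul, norm_mul, norm_pow, Real.norm_of_nonneg hy.1.le]
      have h3 : ‖c (m + 1)‖ ≤ M / t ^ (m + 1) := by
        rw [le_div_iff₀ (by positivity)]
        have := hM (m + 1)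
        rwa [norm_mul, norm_pow, Real.norm_of_nonneg ht0.le] at this
      have h4 : y ^ m ≤ s ^ m := pow_le_pow_left₀ hy.1.le hy.2.le m
      have h5 : ‖((m + 1 : ℕ) : ℝ)‖ = ((m + 1 : ℕ) : ℝ) := Real.norm_of_nonneg (Nat.cast_nonneg _)
      rw [h5]
      calc ‖c (m + 1)‖ * (((m + 1 : ℕ) : ℝ) * y ^ m)
          ≤ M / t ^ (m + 1) * (((m + 1 : ℕ) : ℝ) * s ^ m) := by
            refine mul_le_mul h3 ?_ ?_ (by positivity)
            · exact mul_le_mul_of_nonneg_left h4 (by positivity)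
            · have h7 := pow_nonneg hy.1.le m
              have h8 : (0 : ℝ) ≤ ((m + 1 : ℕ) : ℝ) := Nat.cast_nonneg _
              exact mul_nonneg h8 h7
        _ = M / s * (((m + 1 : ℕ) : ℝ) * (s / t) ^ (m + 1)) := by
            rw [div_pow]
            field_simp
            ring
  have hder := hasDerivAt_tsum_of_isPreconnected (g := fun k y => c k * y ^ k)
    (g' := fun k y => c k * (k * y ^ (k - 1))) hus isOpen_Ioo (isPreconnected_Ioo)
    (fun k y _ => (hasDerivAt_pow k y).const_mul (c k)) hbd (y₀ := b) ⟨h0, hs1⟩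
    (h b h0 h1).summable ⟨h0, hs1⟩
  have hEq : (fun z => ∑' k, c k * z ^ k) =ᶠ[𝓝 b] f := by
    filter_upwards [isOpen_Ioo.mem_nhds (⟨h0, h1⟩ : b ∈ Set.Ioo 0 r)] with z hz
    exact (h z hz.1 hz.2).tsum_eq
  have hu1 := (hder.congr_of_eventuallyEq hEq.symm).unique (hd b h0 h1)
  have hsum2 : Summable fun k => c k * (k * b ^ (k - 1)) :=
    Summable.of_norm_bounded hus fun k => hbd k b ⟨h0, hs1⟩
  have h6 := hsum2.hasSum
  rw [hu1, ← hasSum_nat_add_iff' 1] at h6
  simp only [Finset.sum_range_one, Nat.cast_zero, zero_mul, mul_zero, sub_zero,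
    Nat.add_sub_cancel] at h6
  refine h6.congr_fun ?_
  intro k
  push_cast
  ring

end Q238.LI
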